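import Pool.Agent.W488.IX.Stm

set_option autoImplicit false

namespace Pool.Agent.W312.IX.Bnd2

open MeasureTheory Set Filter Topology
open Pool.Agent.W488.IW Pool.Agent.W488.IX

lemma powb1 (α ε Z : ℝ) (h1 : α ≤ 1) (hε : 0 < ε) (hZ : ε ≤ Z) :
    ε / Z * (2 * Z) ^ α ≤ 2 * ε ^ α := by
  have hZ0 : 0 < Z := lt_of_lt_of_le hε hZ
  have hr0 : 0 < ε / Z := div_pos hε hZ0
  have hr1 : ε / Z ≤ 1 := (div_le_one hZ0).2 hZ
  have e1 : ε / Z ≤ (ε / Z) ^ α := by
    have := Real.rpow_le_rpow_of_exponent_ge hr0 hr1 h1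
    rwa [Real.rpow_one] at this
  have e2 : (0 : ℝ) ≤ (2 * Z) ^ α := Real.rpow_nonneg (by positivity) _
  have e3 : (ε / Z) ^ α * (2 * Z) ^ α = 2 ^ α * ε ^ α := by
    rw [← Real.mul_rpow hr0.le (by positivity), ← Real.mul_rpow (by norm_num) hε.le]
    congr 1
    field_simp
  have e4 : (2 : ℝ) ^ α ≤ 2 := by
    have := Real.rpow_le_rpow_of_exponent_le (x := 2) (by norm_num) h1
    rwa [Real.rpow_one] at this
  calc ε / Z * (2 * Z) ^ α ≤ (ε / Z) ^ α * (2 * Z) ^ α := mul_le_mul_of_nonneg_right e1 e2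
    _ = 2 ^ α * ε ^ α := e3
    _ ≤ 2 * ε ^ α := mul_le_mul_of_nonneg_right e4 (Real.rpow_nonneg hε.le _)

lemma powb2 (α ε Z : ℝ) (h1 : α ≤ 1) (hε : 0 < ε) (hZ : ε ≤ Z) :
    ε ^ 2 / Z ^ 2 * (2 * Z) ^ α ≤ 2 * ε ^ α := by
  have hZ0 : 0 < Z := lt_of_lt_of_le hε hZ
  refine le_trans (mul_le_mul_of_nonneg_right ?_ (Real.rpow_nonneg (by positivity) _))
    (powb1 α ε Z h1 hε hZ)
  have hr0 : 0 < ε / Z := div_pos hε hZ0
  have hr1 : ε / Z ≤ 1 := (div_le_one hZ0).2 hZ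
  rw [← div_pow]
  nlinarith

variable {α C : ℝ} {κ : ℝ → ℝ}

lemma om1_nonneg (hk : Kap α C κ) (s : ℝ) (hs : 0 ≤ s) : 0 ≤ om1 κ s :=
  intervalIntegral.integral_nonneg hs (fun u _ => hk.nn u)

lemma om1_le (hk : Kap α C κ) (s : ℝ) (hs : 0 ≤ s) : om1 κ s ≤ C * s := by
  have h := intervalIntegral.norm_integral_le_of_norm_le_const (a := 0) (b := s) (f := κ) (C := C)
    (fun x _ => by rw [Real.norm_of_nonneg (hk.nn x)]; exact hk.bd x)
  rw [sub_zero, abs_of_nonneg hs] at h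
  exact (le_abs_self _).trans h

lemma kap_le (hk : Kap α C κ) (r s : ℝ) (hr : 0 ≤ r) (hrs : r ≤ s) : κ r ≤ C * s ^ α :=
  (hk.up r hr).trans (mul_le_mul_of_nonneg_left (Real.rpow_le_rpow hr hrs hk.a0.le)
    (by linarith [hk.C1]))

lemma om1_le' (hk : Kap α C κ) (s : ℝ) (hs : 0 ≤ s) : om1 κ s ≤ C * s ^ α * s := by
  have h := intervalIntegral.norm_integral_le_of_norm_le_const (a := 0) (b := s) (f := κ)
    (C := C * s ^ α)
    (fun x hx => by
      rw [uIoc_of_le hs] at hx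
      rw [Real.norm_of_nonneg (hk.nn x)]; exact kap_le hk x s hx.1.le hx.2)
  rw [sub_zero, abs_of_nonneg hs] at h
  exact (le_abs_self _).trans h

lemma om_nonneg (hk : Kap α C κ) (s : ℝ) (hs : 0 ≤ s) : 0 ≤ om κ s :=
  intervalIntegral.integral_nonneg hs (fun u hu => om1_nonneg hk u hu.1)

lemma om_le (hk : Kap α C κ) (s : ℝ) (hs : 0 ≤ s) : om κ s ≤ C * s ^ α * s * s := by
  have h := intervalIntegral.norm_integral_le_of_norm_le_const (a := 0) (b := s) (f := om1 κ)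
    (C := C * s ^ α * s)
    (fun x hx => by
      rw [uIoc_of_le hs] at hx
      rw [Real.norm_of_nonneg (om1_nonneg hk x hx.1.le)]
      refine (om1_le' hk x hx.1.le).trans ?_
      have hC : (0 : ℝ) ≤ C := by linarith [hk.C1]
      have h1 : C * x ^ α ≤ C * s ^ α :=
        mul_le_mul_of_nonneg_left (Real.rpow_le_rpow hx.1.le hx.2 hk.a0.le) hC
      exact mul_le_mul h1 hx.2 hx.1.le (mul_nonneg hC (Real.rpow_nonneg hs _)))
  rw [sub_zero, abs_of_nonneg hs] at h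
  exact (le_abs_self _).trans h

lemma hh1_nonneg (hk : Kap α C κ) (s : ℝ) (hs : 0 ≤ s) : 0 ≤ hh1 κ s :=
  intervalIntegral.integral_nonneg hs (fun u hu => div_nonneg (hk.nn u) hu.1)

lemma hh1_le (hk : Kap α C κ) (s : ℝ) (hs : 0 ≤ s) : hh1 κ s ≤ C / α * s ^ α := by
  have ha := hk.a0
  have hC : (0 : ℝ) ≤ C := by linarith [hk.C1]
  have hint : IntervalIntegrable (fun x : ℝ => C * x ^ (α - 1)) volume 0 s :=
    (intervalIntegral.intervalIntegrable_rpow' (by linarith)).const_mul C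
  have h := intervalIntegral.norm_integral_le_of_norm_le (μ := volume) (a := 0) (b := s)
    (f := fun x => κ x / x) (g := fun x : ℝ => C * x ^ (α - 1)) hs
    (Filter.Eventually.of_forall (fun x hx => by
      rw [Real.norm_of_nonneg (div_nonneg (hk.nn x) hx.1.le), div_le_iff₀ hx.1]
      refine (hk.up x hx.1.le).trans (le_of_eq ?_)
      rw [mul_assoc]
      congr 1
      have h1 : x ^ (α - 1) * x = x ^ (α - 1) * x ^ (1 : ℝ) := by rw [Real.rpow_one]
      rw [h1, ← Real.rpow_add hx.1]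
      congr 1
      ring)) hint
  rw [intervalIntegral.integral_const_mul, integral_rpow (Or.inl (by linarith))] at h
  have e0 : α - 1 + 1 = α := by ring
  rw [e0, Real.zero_rpow ha.ne', sub_zero] at h
  refine (le_abs_self _).trans (h.trans (le_of_eq ?_))
  ring

lemma E2_bounds (hk : Kap α C κ) (X Y : ℝ) (hY : 0 < Y) (hXY : Y ≤ X) :
    0 ≤ E2 κ X Y ∧ E2 κ X Y ≤ C * (2 * X) ^ α * X ^ 2 := by
  have hX : 0 < X := lt_of_lt_of_le hY hXY
  have hC : (0 : ℝ) ≤ C := by linarith [hk.C1]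
  have hm : min X Y = Y := min_eq_right hXY
  unfold E2
  rw [hm]
  constructor
  · exact intervalIntegral.integral_nonneg hXY
      (fun u hu => mul_nonneg (hY.le.trans hu.1) (hk.nn _))
  · have h := intervalIntegral.norm_integral_le_of_norm_le_const (a := Y) (b := X)
      (f := fun s => s * κ (2 * s)) (C := X * (C * (2 * X) ^ α))
      (fun x hx => by
        rw [uIoc_of_le hXY] at hx
        have hx0 : 0 < x := hY.trans hx.1
        rw [Real.norm_of_nonneg (mul_nonneg hx0.le (hk.nn _))]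
        exact mul_le_mul hx.2 (kap_le hk (2 * x) (2 * X) (by linarith) (by linarith [hx.2]))
          (hk.nn _) hX.le)
    rw [abs_of_nonneg (by linarith)] at h
    refine (le_abs_self _).trans (h.trans ?_)
    have hp : 0 ≤ X * (C * (2 * X) ^ α) :=
      mul_nonneg hX.le (mul_nonneg hC (Real.rpow_nonneg (by positivity) _))
    calc X * (C * (2 * X) ^ α) * (X - Y) ≤ X * (C * (2 * X) ^ α) * X :=
          mul_le_mul_of_nonneg_left (by linarith) hp
      _ = _ := by ring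

theorem main : S_BND2 := by
  intro α C κ hk
  have ha := hk.a0
  have ha1 := hk.a1
  have hC1 := hk.C1
  have hC : (0 : ℝ) ≤ C := by linarith
  have hCa : (0 : ℝ) ≤ C / α := by positivity
  refine ⟨16 * C + 4 * (C / α), by linarith, ?_⟩
  intro ε hε hε8 x y hy hyx X Y hX hY
  have hx : 0 < x := lt_of_le_of_lt hy hyx
  have hX2 : X ^ 2 = x ^ 2 + ε ^ 2 := by rw [hX]; exact Real.sq_sqrt (by positivity)
  have hY2 : Y ^ 2 = y ^ 2 + ε ^ 2 := by rw [hY]; exact Real.sq_sqrt (by positivity)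
  have hX0 : 0 < X := by rw [hX]; exact Real.sqrt_pos.2 (by positivity)
  have hY0 : 0 < Y := by rw [hY]; exact Real.sqrt_pos.2 (by positivity)
  have hYX : Y ≤ X := by
    rw [hX, hY]; exact Real.sqrt_le_sqrt (by nlinarith)
  have hεY : ε ≤ Y := by
    rw [hY]; exact Real.le_sqrt_of_sq_le (by nlinarith)
  have hεX : ε ≤ X := hεY.trans hYX
  have hxX : x ≤ X := by
    rw [hX]; exact Real.le_sqrt_of_sq_le (by nlinarith)
  have hyY : y ≤ Y := by
    rw [hY]; exact Real.le_sqrt_of_sq_le (by nlinarith)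
  have hA0 : 0 ≤ x / X := by positivity
  have hA1 : x / X ≤ 1 := (div_le_one hX0).2 hxX
  have hB0 : 0 ≤ y / Y := by positivity
  have hB1 : y / Y ≤ 1 := (div_le_one hY0).2 hyY
  have hA2 : 1 - (x / X) ^ 2 = ε ^ 2 / X ^ 2 := by
    rw [div_pow, eq_div_iff (by positivity), sub_mul, div_mul_cancel₀ _ (by positivity)]
    linarith
  have hB2 : 1 - (y / Y) ^ 2 = ε ^ 2 / Y ^ 2 := by
    rw [div_pow, eq_div_iff (by positivity), sub_mul, div_mul_cancel₀ _ (by positivity)]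
    linarith
  set PX := (2 * X) ^ α with hPX
  set PY := (2 * Y) ^ α with hPY
  have hPX0 : 0 ≤ PX := Real.rpow_nonneg (by positivity) _
  have hPY0 : 0 ≤ PY := Real.rpow_nonneg (by positivity) _
  have hPYX : PY ≤ PX := Real.rpow_le_rpow (by positivity) (by linarith) ha.le
  have hε0 : 0 ≤ ε ^ α := Real.rpow_nonneg hε.le _
  have pX := powb2 α ε X ha1 hε hεX
  have pY := powb2 α ε Y ha1 hε hεY
  have pX1 := powb1 α ε X ha1 hε hεX
  rw [← hPX] at pX pX1
  rw [← hPY] at pY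
  -- the numbers
  have k1 : κ (2 * X) ≤ C * PX := hk.up _ (by positivity)
  have k2 : κ (2 * Y) ≤ C * PY := hk.up _ (by positivity)
  have o1n : 0 ≤ om1 κ (2 * X) / (2 * X) := div_nonneg (om1_nonneg hk _ (by positivity))
    (by positivity)
  have o2n : 0 ≤ om1 κ (2 * Y) / (2 * Y) := div_nonneg (om1_nonneg hk _ (by positivity))
    (by positivity)
  have o1C : om1 κ (2 * X) / (2 * X) ≤ C := by
    rw [div_le_iff₀ (by positivity)]; exact om1_le hk _ (by positivity)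
  have o2C : om1 κ (2 * Y) / (2 * Y) ≤ C := by
    rw [div_le_iff₀ (by positivity)]; exact om1_le hk _ (by positivity)
  have o1P : om1 κ (2 * X) / (2 * X) ≤ C * PX := by
    rw [div_le_iff₀ (by positivity)]; exact om1_le' hk _ (by positivity)
  have o2P : om1 κ (2 * Y) / (2 * Y) ≤ C * PY := by
    rw [div_le_iff₀ (by positivity)]; exact om1_le' hk _ (by positivity)
  have e3 := hk.e3 X Y hY0 hYX
  have e4 := hk.e4 X Y hY0 hYX
  have e1 := hk.e1 X Y hY0 hYX
  have e2 := hk.e2 X Y hY0 hYX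
  have hYn := hh1_nonneg hk (2 * Y) (by positivity)
  have hXl := hh1_le hk (2 * X) (by positivity)
  have hXt := hk.tail (2 * X) (by positivity)
  rw [← hPX] at hXl
  have hH0 : 0 ≤ hh1 κ (2 * X) - hh1 κ (2 * Y) := by linarith
  have hCPX : 0 ≤ C * PX := mul_nonneg hC hPX0
  have hCPY : 0 ≤ C * PY := mul_nonneg hC hPY0
  have hCPYX : C * PY ≤ C * PX := mul_le_mul_of_nonneg_left hPYX hC
  have hsX : 0 ≤ ε ^ 2 / X ^ 2 := by positivity
  have hsY : 0 ≤ ε ^ 2 / Y ^ 2 := by positivity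
  -- generic bounds
  have gX : ∀ v m : ℝ, 0 ≤ m → m ≤ 8 → v ≤ m * (C * PX) →
      ε ^ 2 / X ^ 2 * v ≤ (16 * C + 4 * (C / α)) * ε ^ α := by
    intro v m hm0 hm hv
    calc ε ^ 2 / X ^ 2 * v ≤ ε ^ 2 / X ^ 2 * (m * (C * PX)) :=
          mul_le_mul_of_nonneg_left hv hsX
      _ = m * C * (ε ^ 2 / X ^ 2 * PX) := by ring
      _ ≤ m * C * (2 * ε ^ α) := mul_le_mul_of_nonneg_left pX (by positivity)
      _ = (2 * m * C) * ε ^ α := by ring
      _ ≤ (16 * C + 4 * (C / α)) * ε ^ α := by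
          apply mul_le_mul_of_nonneg_right _ hε0
          have := mul_le_mul_of_nonneg_right hm hC
          linarith
  have gY : ∀ v m : ℝ, 0 ≤ m → m ≤ 8 → v ≤ m * (C * PY) →
      ε ^ 2 / Y ^ 2 * v ≤ (16 * C + 4 * (C / α)) * ε ^ α := by
    intro v m hm0 hm hv
    calc ε ^ 2 / Y ^ 2 * v ≤ ε ^ 2 / Y ^ 2 * (m * (C * PY)) :=
          mul_le_mul_of_nonneg_left hv hsY
      _ = m * C * (ε ^ 2 / Y ^ 2 * PY) := by ring
      _ ≤ m * C * (2 * ε ^ α) := mul_le_mul_of_nonneg_left pY (by positivity)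
      _ = (2 * m * C) * ε ^ α := by ring
      _ ≤ (16 * C + 4 * (C / α)) * ε ^ α := by
          apply mul_le_mul_of_nonneg_right _ hε0
          have := mul_le_mul_of_nonneg_right hm hC
          linarith
  obtain ⟨E0, E1⟩ := E2_bounds hk X Y hY0 hYX
  rw [← hPX] at E1
  have e0n : 0 ≤ 2 * E2 κ X Y / X ^ 2 := by positivity
  have e0P : 2 * E2 κ X Y / X ^ 2 ≤ 2 * (C * PX) := by
    rw [div_le_iff₀ (by positivity)]
    have h10 : 2 * (C * PX) * X ^ 2 = 2 * (C * PX * X ^ 2) := by ring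
    rw [h10]
    linarith
  refine
    { hA := ⟨hA0, hA1⟩
      hB := ⟨hB0, hB1⟩
      ht := ⟨by positivity, (div_le_one hX0).2 hYX⟩
      k1 := ⟨hk.nn _, (hk.bd _).trans (by linarith)⟩
      k2 := ⟨hk.nn _, (hk.bd _).trans (by linarith)⟩
      o1 := ⟨o1n, by linarith⟩
      o2 := ⟨o2n, by linarith⟩
      h0 := ⟨hH0, by linarith⟩
      c1 := ?_
      c2 := e2
      c3 := e3
      c4 := e4
      r1 := ?_
      r2 := ?_
      r3 := ?_
      r4 := ?_
      r5 := ?_ }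
  · have h1 : Y / X * (hh1 κ (2 * X) - hh1 κ (2 * Y)) =
        (Y * (hh1 κ (2 * X) - hh1 κ (2 * Y))) / X := by ring
    have h2 : (1 - Y / X) * κ (2 * X) = ((X - Y) * κ (2 * X)) / X := by
      field_simp
    rw [h1, h2]
    exact div_le_div_of_nonneg_right e1 hX0.le
  · rw [hA2]
    exact gX _ 1 (by norm_num) (by norm_num) (by linarith)
  · rw [hA2]
    refine gX _ 2 (by norm_num) (by norm_num) ?_
    rw [abs_le]
    constructor <;> linarith [hk.nn (2 * X)]
  · rw [hB2]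
    refine gY _ 2 (by norm_num) (by norm_num) ?_
    rw [abs_le]
    constructor <;> linarith [hk.nn (2 * Y)]
  · rw [hB2]
    have om0 := om_nonneg hk (2 * Y) (by positivity)
    have om1' := om_le hk (2 * Y) (by positivity)
    rw [← hPY] at om1'
    have hG : 2 * G2 κ X Y / Y ^ 2 + (2 * (om1 κ (2 * Y) / (2 * Y)) + κ (2 * Y)
        + 2 * (hh1 κ (2 * X) - hh1 κ (2 * Y))
        - 4 * (om1 κ (2 * X) / (2 * X) - om1 κ (2 * Y) / (2 * Y)))
        = 2 * (om1 κ (2 * Y) / (2 * Y)) + κ (2 * Y) - 2 * om κ (2 * Y) / Y ^ 2 := by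
      unfold G2 Ht
      rw [min_eq_right hYX, max_eq_left hYX]
      have : Y + Y = 2 * Y := by ring
      rw [this]
      field_simp
      ring
    rw [hG]
    have hom0 : 0 ≤ 2 * om κ (2 * Y) / Y ^ 2 := by positivity
    have homP : 2 * om κ (2 * Y) / Y ^ 2 ≤ 8 * (C * PY) := by
      rw [div_le_iff₀ (by positivity)]
      have h9 : C * PY * (2 * Y) * (2 * Y) = 4 * (C * PY * Y ^ 2) := by ring
      have h10 : 8 * (C * PY) * Y ^ 2 = 8 * (C * PY * Y ^ 2) := by ring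
      rw [h9] at om1'
      rw [h10]
      linarith
    refine gY _ 8 (by norm_num) (by norm_num) ?_
    rw [abs_le]
    constructor <;> linarith [hk.nn (2 * Y)]
  · have hAB : 1 - x / X * (y / Y) ≤ 2 * (ε ^ 2 / Y ^ 2) := by
      have h1 : ε ^ 2 / X ^ 2 ≤ ε ^ 2 / Y ^ 2 := by
        apply div_le_div_of_nonneg_left (by positivity) (by positivity)
        exact pow_le_pow_left₀ hY0.le hYX 2
      have h2 : (x / X) ^ 2 * (y / Y) ^ 2 ≤ x / X * (y / Y) := by
        have h3 : 0 ≤ x / X * (y / Y) := by positivity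
        have h4 : x / X * (y / Y) ≤ 1 := mul_le_one₀ hA1 hB0 hB1
        have h7 := mul_le_mul_of_nonneg_left h4 h3
        have h8 : (x / X) ^ 2 * (y / Y) ^ 2 = x / X * (y / Y) * (x / X * (y / Y)) := by ring
        rw [h8]
        linarith
      have h5 : 0 ≤ (1 - (x / X) ^ 2) * (1 - (y / Y) ^ 2) := by
        rw [hA2, hB2]; positivity
      have h6 : (1 - (x / X) ^ 2) * (1 - (y / Y) ^ 2) = (1 - (x / X) ^ 2) + (1 - (y / Y) ^ 2)
        - 1 + (x / X) ^ 2 * (y / Y) ^ 2 := by ring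
      rw [h6, hA2, hB2] at h5
      linarith
    have hS0 : 0 ≤ hh1 κ (2 * X) - hh1 κ (2 * Y) + κ (2 * X) + κ (2 * Y)
        + om1 κ (2 * X) / (2 * X) + om1 κ (2 * Y) / (2 * Y) := by
      linarith [hk.nn (2 * X), hk.nn (2 * Y)]
    have hSP : hh1 κ (2 * X) - hh1 κ (2 * Y) + κ (2 * X) + κ (2 * Y)
        + om1 κ (2 * X) / (2 * X) + om1 κ (2 * Y) / (2 * Y) ≤ (4 * C + C / α) * PX := by
      have : (4 * C + C / α) * PX = 4 * (C * PX) + C / α * PX := by ring
      rw [this]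
      linarith
    have hT : Y / X * (1 - x / X * (y / Y)) ≤ 2 * (ε / X) := by
      calc Y / X * (1 - x / X * (y / Y)) ≤ Y / X * (2 * (ε ^ 2 / Y ^ 2)) :=
            mul_le_mul_of_nonneg_left hAB (by positivity)
        _ = 2 * (ε / X) * (ε / Y) := by field_simp
        _ ≤ 2 * (ε / X) * 1 := mul_le_mul_of_nonneg_left ((div_le_one hY0).2 hεY) (by positivity)
        _ = _ := by ring
    calc Y / X * (1 - x / X * (y / Y)) * (hh1 κ (2 * X) - hh1 κ (2 * Y) + κ (2 * X) + κ (2 * Y)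
        + om1 κ (2 * X) / (2 * X) + om1 κ (2 * Y) / (2 * Y))
        ≤ 2 * (ε / X) * (hh1 κ (2 * X) - hh1 κ (2 * Y) + κ (2 * X) + κ (2 * Y)
        + om1 κ (2 * X) / (2 * X) + om1 κ (2 * Y) / (2 * Y)) :=
          mul_le_mul_of_nonneg_right hT hS0
      _ ≤ 2 * (ε / X) * ((4 * C + C / α) * PX) :=
          mul_le_mul_of_nonneg_left hSP (by positivity)
      _ = 2 * (4 * C + C / α) * (ε / X * PX) := by ring
      _ ≤ 2 * (4 * C + C / α) * (2 * ε ^ α) :=
          mul_le_mul_of_nonneg_left pX1 (by positivity)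
      _ = _ := by ring

end Pool.Agent.W312.IX.Bnd2
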